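import Pool.Agent.Work.MP_ef7f46_tn.Interface

/-!
MP_ef7f46_co, project TN: block MUL
-/

set_option autoImplicit false
open Classical Finset

noncomputable section

namespace TN

namespace MUL

theorem le_one_add_choose (n : ℕ) (hn : 1 ≤ n) : n ≤ 1 + n.choose 2 := by
  induction n with
  | zero => omega
  | succ n ih =>
    rcases Nat.eq_zero_or_pos n with h | h
    · subst h; simp
    · have h1 := ih h
      have h2 : (n + 1).choose 2 = n.choose 1 + n.choose 2 := Nat.choose_succ_succ n 1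
      rw [Nat.choose_one_right] at h2
      omega

end MUL

theorem mul_ok : Stmt_MUL := by
  intro Q Λ _ _ X w R hw β F
  have h1 : ∑ j ∈ F, dg X.inc w (β j)
      = ∑ ℓ, ((F.filter (fun j => β j ∈ X.inc ℓ)).card : ℝ) * w ℓ := by
    unfold dg
    rw [Finset.sum_comm]
    refine Finset.sum_congr rfl fun ℓ _ => ?_
    rw [← Finset.sum_filter, Finset.sum_const, nsmul_eq_mul]
  rw [h1, Finset.mul_sum, ← Finset.sum_add_distrib]
  refine Finset.sum_le_sum fun ℓ _ => ?_
  set n := (F.filter (fun j => β j ∈ X.inc ℓ)).card with hn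
  have hnpc : n ≤ pc X β ℓ := by
    unfold pc
    exact Finset.card_le_card (Finset.filter_subset_filter _ (Finset.subset_univ _))
  have hc : ((n.choose 2 : ℕ) : ℝ) ≤ ((pc X β ℓ).choose 2 : ℕ) := by
    exact_mod_cast Nat.choose_le_choose 2 hnpc
  obtain ⟨hw0, hwR⟩ := hw ℓ
  have hR : w ℓ * ((n.choose 2 : ℕ) : ℝ) ≤ R * ((pc X β ℓ).choose 2 : ℕ) :=
    mul_le_mul hwR hc (Nat.cast_nonneg _) (hw0.trans hwR)
  by_cases hex : ∃ j ∈ F, β j ∈ X.inc ℓ
  · rw [if_pos hex]
    have hn1 : 1 ≤ n := by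
      obtain ⟨j, hj, hj'⟩ := hex
      exact Finset.card_pos.mpr ⟨j, Finset.mem_filter.mpr ⟨hj, hj'⟩⟩
    have h2 : (n : ℝ) ≤ 1 + (n.choose 2 : ℕ) := by exact_mod_cast MUL.le_one_add_choose n hn1
    have h3 := mul_le_mul_of_nonneg_right h2 hw0
    linarith
  · rw [if_neg hex]
    have hn0 : n = 0 := by
      rw [hn, Finset.card_eq_zero, Finset.filter_eq_empty_iff]
      intro j hj hj'
      exact hex ⟨j, hj, hj'⟩
    rw [hn0]
    have h4 : 0 ≤ R * (((pc X β ℓ).choose 2 : ℕ) : ℝ) :=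
      mul_nonneg (hw0.trans hwR) (Nat.cast_nonneg _)
    simpa using h4

end TN
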