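import Pool.Agent.Work.MP_ef7f46_tn.Interface

/-!
MP_ef7f46_co, project TN: block TYR (few repeated positions)
-/

set_option autoImplicit false
open Classical Finset

noncomputable section

namespace TN

namespace TYR

/-- number of functions with `z p = z p'` -/
theorem count_eq {P Q : Type} [Fintype P] [Fintype Q] [DecidableEq P] {p p' : P} (h : p' ≠ p) :
    (univ.filter (fun z : P → Q => z p = z p')).card * Fintype.card Q
      ≤ Fintype.card Q ^ Fintype.card P := by
  have h1 : Fintype.card Q ^ Fintype.card P = (univ : Finset (P → Q)).card := by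
    rw [Finset.card_univ, Fintype.card_fun]
  have h2 : (univ.filter (fun z : P → Q => z p = z p')).card * Fintype.card Q
      = ((univ.filter (fun z : P → Q => z p = z p')) ×ˢ (univ : Finset Q)).card := by
    rw [Finset.card_product, Finset.card_univ]
  rw [h1, h2]
  refine Finset.card_le_card_of_injOn (fun x => Function.update x.1 p x.2)
    (fun _ _ => Finset.mem_coe.mpr (Finset.mem_univ _)) ?_
  rintro ⟨z₁, q₁⟩ h1 ⟨z₂, q₂⟩ h2 heq
  simp only [coe_product, coe_filter, mem_univ, true_and, coe_univ, Set.mem_prod,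
    Set.mem_ofPred_eq, Set.mem_univ, and_true] at h1 h2
  have hq : q₁ = q₂ := by
    have := congrFun heq p
    simpa using this
  have hz : z₁ = z₂ := by
    funext x
    by_cases hx : x = p
    · subst hx
      have h3 := congrFun heq p'
      simp only [Function.update_of_ne h] at h3
      rw [h1, h2, h3]
    · have h3 := congrFun heq x
      simpa only [Function.update_of_ne hx] using h3
  rw [hq, hz]

/-- Markov -/
theorem markov {A : Type} [Fintype A] (f : A → ℝ) (hf : ∀ a, 0 ≤ f a) {t : ℝ} :
    t * ((univ.filter (fun a => ¬ f a ≤ t)).card : ℝ) ≤ ∑ a, f a := by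
  calc t * ((univ.filter (fun a => ¬ f a ≤ t)).card : ℝ)
      = ∑ a ∈ univ.filter (fun a => ¬ f a ≤ t), t := by
        rw [Finset.sum_const, nsmul_eq_mul, mul_comm]
    _ ≤ ∑ a ∈ univ.filter (fun a => ¬ f a ≤ t), f a := by
        refine Finset.sum_le_sum fun a ha => ?_
        rw [Finset.mem_filter] at ha
        exact (not_le.mp ha.2).le
    _ ≤ ∑ a, f a :=
        Finset.sum_le_sum_of_subset_of_nonneg (Finset.filter_subset _ _) fun a _ _ => hf a

theorem total {P Q : Type} [Fintype P] [Fintype Q] [DecidableEq P] :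
    (∑ z : P → Q, (univ.filter (fun p => ∃ p', p' ≠ p ∧ z p = z p')).card) * Fintype.card Q
      ≤ Fintype.card P ^ 2 * Fintype.card Q ^ Fintype.card P := by
  have h1 : ∀ z : P → Q, (univ.filter (fun p => ∃ p', p' ≠ p ∧ z p = z p')).card
      ≤ ∑ x ∈ (univ : Finset (P × P)).filter (fun x => x.2 ≠ x.1),
          (if z x.1 = z x.2 then 1 else 0) := by
    intro z
    rw [← Finset.sum_filter, ← Finset.card_eq_sum_ones]
    have h2 : univ.filter (fun p => ∃ p', p' ≠ p ∧ z p = z p') ⊆
        (((univ : Finset (P × P)).filter (fun x => x.2 ≠ x.1)).filter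
          (fun x => z x.1 = z x.2)).image Prod.fst := by
      intro p hp
      rw [Finset.mem_filter] at hp
      obtain ⟨p', hp', hz⟩ := hp.2
      exact Finset.mem_image.mpr ⟨(p, p'), by simp [hp', hz], rfl⟩
    exact (Finset.card_le_card h2).trans Finset.card_image_le
  calc (∑ z : P → Q, (univ.filter (fun p => ∃ p', p' ≠ p ∧ z p = z p')).card) * Fintype.card Q
      ≤ (∑ z : P → Q, ∑ x ∈ (univ : Finset (P × P)).filter (fun x => x.2 ≠ x.1),
          (if z x.1 = z x.2 then 1 else 0)) * Fintype.card Q :=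
        Nat.mul_le_mul_right _ (Finset.sum_le_sum fun z _ => h1 z)
    _ = ∑ x ∈ (univ : Finset (P × P)).filter (fun x => x.2 ≠ x.1),
          (univ.filter (fun z : P → Q => z x.1 = z x.2)).card * Fintype.card Q := by
        rw [Finset.sum_comm, Finset.sum_mul]
        refine Finset.sum_congr rfl fun x _ => ?_
        rw [← Finset.sum_filter, ← Finset.card_eq_sum_ones]
    _ ≤ ∑ x ∈ (univ : Finset (P × P)).filter (fun x => x.2 ≠ x.1),
          Fintype.card Q ^ Fintype.card P := by
        refine Finset.sum_le_sum fun x hx => ?_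
        exact count_eq (Finset.mem_filter.mp hx).2
    _ = ((univ : Finset (P × P)).filter (fun x => x.2 ≠ x.1)).card *
          Fintype.card Q ^ Fintype.card P := by rw [Finset.sum_const, smul_eq_mul]
    _ ≤ Fintype.card P ^ 2 * Fintype.card Q ^ Fintype.card P := by
        refine Nat.mul_le_mul_right _ ((Finset.card_filter_le _ _).trans ?_)
        rw [Finset.card_univ, Fintype.card_prod, sq]

end TYR

theorem tyr_ok : Stmt_TYR := by
  intro Q Λ _ _ X hX
  have hN : (0 : ℝ) < X.N := by exact_mod_cast hX.lin.Npos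
  have hM : (0 : ℝ) < X.M := by exact_mod_cast hX.lin.Mpos
  have hl : (0 : ℝ) < X.lam := by exact_mod_cast hX.lampos
  have hP : Fintype.card (Pos X) = X.lam * X.M := by
    rw [← hX.mb]; simp [Pos]
  have hQ : (Fintype.card Q : ℝ) = qq X := by
    rw [hX.lin.cardQ]; unfold qq; push_cast; rfl
  have hqq : 0 < qq X := mul_pos hN hM
  have h1 := TYR.markov (A := Pos X → Q)
    (fun z => ((univ.filter (fun p => ∃ p', p' ≠ p ∧ z p = z p')).card : ℝ))
    (fun z => Nat.cast_nonneg _) (t := 10 * (X.lam : ℝ) / X.N * (X.lam * X.M))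
  have h2 := TYR.total (P := Pos X) (Q := Q)
  have h3 : (∑ z : Pos X → Q, ((univ.filter (fun p => ∃ p', p' ≠ p ∧ z p = z p')).card : ℝ))
      * qq X ≤ ((X.lam : ℝ) * X.M) ^ 2 * qq X ^ (X.lam * X.M) := by
    rw [← hQ]
    rw [hP] at h2
    exact_mod_cast h2
  set c := ((univ.filter (fun z : Pos X → Q =>
      ¬ ((univ.filter (fun p => ∃ p', p' ≠ p ∧ z p = z p')).card : ℝ)
        ≤ 10 * (X.lam : ℝ) / X.N * (X.lam * X.M))).card : ℝ) with hc
  have h4 := (mul_le_mul_of_nonneg_right h1 hqq.le).trans h3
  have h5 : 10 * (X.lam : ℝ) / X.N * (X.lam * X.M) * c * qq X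
      = ((X.lam : ℝ) * X.M) ^ 2 * (10 * c) := by
    unfold qq
    field_simp
  rw [h5] at h4
  have h6 : (0 : ℝ) < ((X.lam : ℝ) * X.M) ^ 2 := by positivity
  have h7 := le_of_mul_le_mul_left h4 h6
  linarith

end TN
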